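import Pool.Agent.Y1.KN.Stm8

/-! Project KN: the numerical lemma `P_num7`. -/

set_option autoImplicit false

namespace Pool.Agent.Y73.KN

open Pool.Agent.Y1.KN

theorem num7 : P_num7 := by
  refine ⟨10 ^ 12, by norm_num, ?_⟩
  intro g m d c n Gc N hn hm hd hg hdg hGc hGg hN1 hN
  have hn' : (1 : ℝ) ≤ n := by exact_mod_cast hn
  have hm' : (1 : ℝ) ≤ m := by exact_mod_cast hm
  have hd' : (1 : ℝ) ≤ d := by exact_mod_cast hd
  have hg' : (1 : ℝ) ≤ g := by exact_mod_cast hg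
  have hdg' : (d : ℝ) ^ 2 ≤ 2 * g := by exact_mod_cast hdg
  have hGc' : (1 : ℝ) ≤ Gc := by exact_mod_cast hGc
  have hGg' : (Gc : ℝ) ≤ 4 * g := by exact_mod_cast hGg
  have hlg : 0 ≤ Real.log g := Real.log_nonneg hg'
  set Λ : ℝ := 1 + Real.log g with hΛ
  have hΛ1 : 1 ≤ Λ := by linarith
  have hl2 : Real.log 2 < 0.6931471808 := Real.log_two_lt_d9
  have hl4 : Real.log 4 = 2 * Real.log 2 := by
    rw [show (4 : ℝ) = 2 ^ 2 by norm_num, Real.log_pow]
    norm_num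
  have hl32 : Real.log 32 = 5 * Real.log 2 := by
    rw [show (32 : ℝ) = 2 ^ 5 by norm_num, Real.log_pow]
    norm_num
  set ld : ℝ := Real.log (4 * d) with hld
  have hld0 : 0 ≤ ld := Real.log_nonneg (by linarith)
  have hld4 : ld ≤ 4 * Λ := by
    have h1 : Real.log ((4 * d) ^ 2) ≤ Real.log (32 * g) := by
      apply Real.log_le_log (by positivity)
      nlinarith
    rw [Real.log_pow, ← hld, Real.log_mul (x := 32) (by norm_num) (by positivity), hl32] at h1
    push_cast at h1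
    rw [hΛ]
    linarith
  set L : ℝ := Real.log ((Gc * n : ℕ) : ℝ) with hL
  have hL0 : 0 ≤ L := by
    apply Real.log_nonneg
    push_cast
    nlinarith
  have hLb : 10 ^ 4 + 10 * L ≤ 2 * 10 ^ 4 * (Λ * n) := by
    have h1 : L = Real.log Gc + Real.log n := by
      rw [hL]
      push_cast
      rw [Real.log_mul (by positivity) (by positivity)]
    have h2 : Real.log Gc ≤ Real.log 4 + Real.log g := by
      rw [← Real.log_mul (by norm_num) (by positivity)]
      exact Real.log_le_log (by positivity) hGg'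
    have h3 : Real.log n ≤ n - 1 := Real.log_le_sub_one_of_pos (by positivity)
    have h4 : Λ ≤ Λ * n := by nlinarith
    have h5 : (n : ℝ) ≤ Λ * n := by nlinarith
    have h6 : L ≤ Λ + n := by linarith
    have h7 : 1 ≤ Λ * n := by linarith
    linarith
  have hmg : (0 : ℝ) < m * g := by positivity
  have hcast : ((m * g : ℕ) : ℝ) = m * g := by push_cast; rfl
  have hn2 : (1 : ℝ) ≤ (n : ℝ) ^ 2 := one_le_pow₀ hn'
  have hΛ2 : 1 ≤ Λ ^ 2 := one_le_pow₀ hΛ1
  unfold boundB at hN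
  rw [hcast] at hN
  split_ifs at hN with h
  · refine hN.trans ?_
    apply pow_le_pow_left₀ (Real.sqrt_nonneg _)
    apply Real.sqrt_le_sqrt
    apply div_le_div_of_nonneg_right _ hmg.le
    apply mul_le_mul_of_nonneg_right _ (by linarith)
    calc 32 * ld ≤ 32 * (4 * Λ) := by linarith
      _ ≤ 10 ^ 12 * (1 * (1 * Λ)) := by nlinarith
      _ ≤ 10 ^ 12 * ((n : ℝ) ^ 2 * (Λ ^ 2 * Λ)) := by gcongr
      _ = 10 ^ 12 * (n : ℝ) ^ 2 * Λ ^ 3 := by ring
  · rw [not_le] at h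
    have h1 : (10 ^ 4 + 10 * L) ^ 2 * ld * d ≤ (2 * 10 ^ 4 * (Λ * n)) ^ 2 * (4 * Λ) * d := by
      gcongr
    have h2 : 1 ≤ 10 ^ 12 * (n : ℝ) ^ 2 * Λ ^ 3 * d / (m * g) := by
      rw [le_div_iff₀ hmg, one_mul]
      have h3 : (2 * 10 ^ 4 * (Λ * n)) ^ 2 * (4 * Λ) * d =
          16 * 10 ^ 8 * ((n : ℝ) ^ 2 * Λ ^ 3 * d) := by ring
      have h4 : 0 ≤ (n : ℝ) ^ 2 * Λ ^ 3 * d := by positivity
      nlinarith
    calc N ≤ 1 := hN1
      _ = 1 ^ c := (one_pow c).symm
      _ ≤ _ := by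
        apply pow_le_pow_left₀ zero_le_one
        rw [Real.one_le_sqrt]
        exact h2

end Pool.Agent.Y73.KN
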